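import Pool.Agent.Helper11.M3.Goals4
import Pool.Agent.Helper61.PP.CMNB

/-!
# Project M3: packet Q_MNB
-/

set_option autoImplicit false

namespace Pool.Agent.Helper86.M3

open Finset Pool.Agent.Helper17.PP Pool.Agent.Helper11.M3

theorem q_mnb : Q_MNB := by
  classical
  intro p B B₀ k U Λ C _ _ _ _ _ _ _ S b P₁
  have hQ : (1 : ℝ) < Fintype.card k := by exact_mod_cast Fintype.one_lt_card
  set W : Finset B := b.filter fun q => Wv S b q ∧ q ≠ P₁ with hW
  have hWm : ∀ q, q ∈ W ↔ q ∈ b ∧ Wv S b q ∧ q ≠ P₁ := fun q => by rw [hW, mem_filter]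
  have hbl : ∀ q ∈ W, ∀ q' ∈ W, S.bl q = S.bl q' → q = q' := by
    intro q hq q' hq' h
    by_contra hne
    exact ((hWm q).1 hq).2.1.uniq q' ((hWm q').1 hq').1 (fun e => hne e.symm) ((hWm q').1 hq').2.1.spl h.symm
  set h : B → ℕ := fun q => (W.filter fun q' => S.bl q < S.bl q').card with hh
  have hlt : ∀ q ∈ W, ∀ q' ∈ W, S.bl q < S.bl q' → h q' < h q := by
    intro q _ q' hq' hqq
    apply Finset.card_lt_card
    refine ⟨fun x hx => ?_, fun hsub => ?_⟩
    · rw [mem_filter] at hx ⊢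
      exact ⟨hx.1, hqq.trans hx.2⟩
    · have := hsub (mem_filter.2 ⟨hq', hqq⟩)
      exact lt_irrefl _ (mem_filter.1 this).2
  have hinj : Set.InjOn h (W : Set B) := by
    intro q hq q' hq' he
    apply hbl q hq q' hq'
    rcases lt_trichotomy (S.bl q) (S.bl q') with h1 | h1 | h1
    · have := hlt q hq q' hq' h1
      omega
    · exact h1
    · have := hlt q' hq' q hq h1
      omega
  have hle : ∀ q ∈ W, h q ≤ (ra₄ S b q P₁).card := by
    intro q hq
    apply Finset.card_le_card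
    intro q' hq'
    rw [mem_filter] at hq'
    obtain ⟨h1, h2⟩ := hq'
    rw [ra₄, mem_filter, mem_erase, mem_erase]
    refine ⟨⟨((hWm q').1 h1).2.2, ?_, ((hWm q').1 h1).1⟩, ((hWm q').1 h1).2.1.spl, h2⟩
    rintro rfl
    exact lt_irrefl _ h2
  have hfin : ∑ q ∈ W, ((Fintype.card k : ℝ) - 1) * (1 / Fintype.card k : ℝ) ^ (ra₄ S b q P₁).card ≤
      Fintype.card k := by
    refine le_trans (Finset.sum_le_sum fun q hq => ?_)
      (Pool.Agent.Helper61.PP.geo_rank W h hinj _ hQ)
    apply mul_le_mul_of_nonneg_left _ (by linarith)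
    apply pow_le_pow_of_le_one (by positivity) _ (hle q hq)
    rw [div_le_one (by linarith)]
    exact hQ.le
  convert hfin using 1

end Pool.Agent.Helper86.M3
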